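import Pool.Agent.Helper20.Mono.GoalsS

/-! # Packet S2: the index modulo basis vectors -/

namespace Mono

open Finset

/-- The projection along the coordinates of `K`. -/
def prK {n : ℕ} (K : Finset (Fin n)) : (Fin n → ℤ) →+ (Fin n → ℤ) where
  toFun v i := if i ∈ K then 0 else v i
  map_zero' := by funext i; simp
  map_add' v w := by
    funext i
    by_cases h : i ∈ K <;> simp [h]

theorem idxProj : IdxProj := by
  intro n K B
  have hp : (fun (v : Fin n → ℤ) (i : Fin n) => if i ∈ K then 0 else v i) = prK K := rfl
  rw [hp]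
  set E : Set (Fin n → ℤ) := {x | ∃ k ∈ K, x = Pi.single k 1} with hE
  have hpE : ∀ x ∈ E, prK K x = 0 := by
    rintro x ⟨k, hk, rfl⟩
    funext i
    change (if i ∈ K then 0 else (Pi.single k 1 : Fin n → ℤ) i) = 0
    by_cases h : i ∈ K
    · rw [if_pos h]
    · rw [if_neg h, Pi.single_eq_of_ne]
      rintro rfl
      exact h hk
  have hker : ∀ x, prK K x = 0 → x ∈ AddSubgroup.closure (B ∪ E) := by
    intro x hx
    have h1 : x = ∑ k ∈ K, x k • (Pi.single k 1 : Fin n → ℤ) := by
      funext i
      rw [Finset.sum_apply]
      by_cases h : i ∈ K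
      · rw [Finset.sum_eq_single i]
        · simp
        · intro j _ hj
          simp [Pi.single_eq_of_ne hj.symm]
        · intro h'; exact absurd h h'
      · have h2 : x i = 0 := by
          have := congrFun hx i
          change (if i ∈ K then 0 else x i) = 0 at this
          rwa [if_neg h] at this
        rw [h2]
        symm
        apply Finset.sum_eq_zero
        intro j hj
        have : i ≠ j := by rintro rfl; exact h hj
        simp [Pi.single_eq_of_ne this]
    rw [h1]
    apply AddSubgroup.sum_mem
    intro k hk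
    apply AddSubgroup.zsmul_mem
    exact AddSubgroup.subset_closure (Or.inr ⟨k, hk, rfl⟩)
  have hH : AddSubgroup.closure (B ∪ E) =
      (AddSubgroup.closure (prK K '' B)).comap (prK K) := by
    apply le_antisymm
    · rw [AddSubgroup.closure_le]
      rintro x (hx | hx)
      · exact AddSubgroup.subset_closure ⟨x, hx, rfl⟩
      · rw [SetLike.mem_coe, AddSubgroup.mem_comap, hpE x hx]
        exact AddSubgroup.zero_mem _
    · intro x hx
      rw [AddSubgroup.mem_comap, ← AddMonoidHom.map_closure] at hx
      obtain ⟨y, hy, hyx⟩ := hx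
      have h1 : x - y ∈ AddSubgroup.closure (B ∪ E) := by
        apply hker
        rw [map_sub, hyx, sub_self]
      have h2 : y ∈ AddSubgroup.closure (B ∪ E) :=
        AddSubgroup.closure_mono Set.subset_union_left hy
      have h3 := AddSubgroup.add_mem _ h1 h2
      rwa [sub_add_cancel] at h3
  have hS : sat (B ∪ E) = (sat (prK K '' B)).comap (prK K) := by
    ext x
    constructor
    · rintro ⟨j, hj, hx⟩
      refine ⟨j, hj, ?_⟩
      rw [hH] at hx
      rwa [AddSubgroup.mem_comap, map_zsmul] at hx
    · rintro ⟨j, hj, hx⟩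
      refine ⟨j, hj, ?_⟩
      rw [hH]
      rwa [AddSubgroup.mem_comap, map_zsmul]
  have hfix : ∀ x ∈ sat (prK K '' B), prK K x = x := by
    rintro x ⟨j, hj, hx⟩
    rw [← AddMonoidHom.map_closure] at hx
    obtain ⟨y, _, hyx⟩ := hx
    funext i
    change (if i ∈ K then 0 else x i) = x i
    by_cases h : i ∈ K
    · rw [if_pos h]
      have h1 := congrFun hyx i
      change (if i ∈ K then 0 else y i) = (j • x) i at h1
      rw [if_pos h, Pi.smul_apply, smul_eq_mul] at h1
      rcases mul_eq_zero.mp h1.symm with h2 | h2
      · exact absurd h2 hj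
      · exact h2.symm
    · rw [if_neg h]
  unfold idx
  rw [hS, hH, AddSubgroup.relIndex_comap]
  congr 1
  ext x
  constructor
  · rintro ⟨y, hy, rfl⟩
    exact hy
  · intro hx
    refine ⟨x, ?_, hfix x hx⟩
    change prK K x ∈ sat _
    rw [hfix x hx]
    exact hx

end Mono
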