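import Pool.Agent.Helper20.Mono.GoalsS

/-! # Packet S9: the lattice distances of the cells are defined -/

namespace Mono

open Finset

open Classical in
theorem cellLat : CellLat := by
  intro n A b K φ hφ
  unfold cellsS at hφ
  obtain ⟨_, k, l, hk, _, _, hφ⟩ := Finset.mem_filter.mp hφ
  -- a `ℚ`-linear retraction of `ℝ` to `ℚ`
  obtain ⟨π, hπ⟩ : ∃ π : ℝ →ₗ[ℚ] ℚ, π 1 = 1 := by
    obtain ⟨π, hπ⟩ := LinearMap.exists_leftInverse_of_injective (Algebra.linearMap ℚ ℝ)
      (LinearMap.ker_eq_bot.mpr (algebraMap ℚ ℝ).injective)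
    refine ⟨π, ?_⟩
    have := LinearMap.congr_fun hπ 1
    simpa using this
  have hN : ∃ N : ℕ, 0 < N ∧ ∃ κ : Fin n → ℤ, ∀ i, (κ i : ℚ) = N * π (k i) := by
    refine ⟨∏ i, (π (k i)).den, Finset.prod_pos (fun i _ => (π (k i)).den_pos), ?_⟩
    have h1 : ∀ i, ∃ z : ℤ, (z : ℚ) = ((∏ i, (π (k i)).den : ℕ) : ℚ) * π (k i) := by
      intro i
      obtain ⟨q, hq⟩ := Finset.dvd_prod_of_mem (fun i => (π (k i)).den) (Finset.mem_univ i)
      refine ⟨q * (π (k i)).num, ?_⟩
      rw [hq]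
      push_cast
      have h2 := Rat.den_mul_eq_num (π (k i))
      rw [← h2]
      ring
    choose κ hκ using h1
    exact ⟨κ, hκ⟩
  obtain ⟨N, hN0, κ, hκ⟩ := hN
  have hmem : N ∈ {N : ℕ | 0 < N ∧ ∃ k : Fin n → ℤ, ∀ u ∈ projS K φ, k ⬝ᵥ u = (N : ℤ)} := by
    refine ⟨hN0, κ, ?_⟩
    intro u hu
    unfold projS at hu
    obtain ⟨v, hv, rfl⟩ := Finset.mem_image.mp hu
    rw [hφ] at hv
    have hv1 := (Finset.mem_filter.mp hv).2.1
    have h1 : ∑ i, k i * ((if i ∈ K then 0 else v i : ℤ) : ℝ) = 1 := by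
      rw [← hv1]
      unfold dotProduct toR
      apply Finset.sum_congr rfl
      intro i _
      by_cases h : i ∈ K
      · rw [(hk i h).1, zero_mul, zero_mul]
      · rw [if_neg h]
    have h2 : ∑ i, π (k i) * ((if i ∈ K then 0 else v i : ℤ) : ℚ) = 1 := by
      have h3 := congrArg π h1
      rw [map_sum, hπ] at h3
      rw [← h3]
      apply Finset.sum_congr rfl
      intro i _
      have h4 : k i * ((if i ∈ K then 0 else v i : ℤ) : ℝ) =
          ((if i ∈ K then 0 else v i : ℤ) : ℚ) • k i := by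
        rw [Rat.smul_def, mul_comm]
        by_cases h : i ∈ K <;> simp [h]
      rw [h4, map_smul, smul_eq_mul, mul_comm]
    have h5 : ((κ ⬝ᵥ fun i => if i ∈ K then 0 else v i : ℤ) : ℚ) = (N : ℚ) := by
      unfold dotProduct
      push_cast
      calc ∑ i, (κ i : ℚ) * (if i ∈ K then (0 : ℚ) else (v i : ℚ))
          = N * ∑ i, π (k i) * ((if i ∈ K then 0 else v i : ℤ) : ℚ) := by
            rw [Finset.mul_sum]
            apply Finset.sum_congr rfl
            intro i _
            rw [hκ i]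
            push_cast
            ring
        _ = N := by rw [h2, mul_one]
    exact_mod_cast h5
  have := Nat.sInf_mem ⟨N, hmem⟩
  exact this.1.ne'

end Mono
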